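import Pool.Agent.Lib.MP_7bfa24_nt.Semi.Final

set_option autoImplicit false

namespace Pool.Agent.Results.MP_7bfa24_nt.EveryLargeN

open Pool.Agent.MP_7bfa24_nt

/-- For every `n ≥ 34`, and for `10 ≤ n ≤ 12`, `18 ≤ n ≤ 22`, `26 ≤ n ≤ 32`, the bound with exponent
`2n - 5 + ε` fails for every real `ε < 1`. -/
theorem result :
    ∀ n : ℕ, (34 ≤ n ∨ (10 ≤ n ∧ n ≤ 12) ∨ (18 ≤ n ∧ n ≤ 22) ∨ (26 ≤ n ∧ n ≤ 32)) →
      ∀ ε : ℝ, ε < 1 →
      ¬ ∃ C : ℝ, ∀ x : Fin n → ℤ,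
        ∑ i, x i = 0 →
        Finset.univ.gcd x = 1 →
        (∀ I : Finset (Fin n), I.Nonempty → I ≠ Finset.univ → ∑ i ∈ I, x i ≠ 0) →
        ∀ i : Fin n,
          (((|x i| : ℤ)) : ℝ) ≤
            C * (((∏ j, x j).natAbs.primeFactors.prod id : ℕ) : ℝ) ^ (2 * (n : ℝ) - 5 + ε) := by
  intro n hn ε hε
  have hrep : ∃ a b c : ℕ, 1 ≤ a + b + c ∧ n = 8 * a + 9 * b + 10 * c + 2 := by
    rcases hn with h | h | h | h
    · -- n - 2 ≥ 32
      obtain ⟨t, r, hr, ht⟩ : ∃ t r : ℕ, r < 8 ∧ n = 34 + 8 * t + r :=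
        ⟨(n - 34) / 8, (n - 34) % 8, Nat.mod_lt _ (by norm_num), by omega⟩
      have hr' : r = 0 ∨ r = 1 ∨ r = 2 ∨ r = 3 ∨ r = 4 ∨ r = 5 ∨ r = 6 ∨ r = 7 := by omega
      rcases hr' with h | h | h | h | h | h | h | h
      · exact ⟨t + 4, 0, 0, by omega, by omega⟩
      · exact ⟨t + 3, 1, 0, by omega, by omega⟩
      · exact ⟨t + 3, 0, 1, by omega, by omega⟩
      · exact ⟨t + 2, 1, 1, by omega, by omega⟩
      · exact ⟨t + 2, 0, 2, by omega, by omega⟩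
      · exact ⟨t + 1, 1, 2, by omega, by omega⟩
      · exact ⟨t + 1, 0, 3, by omega, by omega⟩
      · exact ⟨t, 1, 3, by omega, by omega⟩
    · obtain ⟨h1, h2⟩ := h
      interval_cases n
      · exact ⟨1, 0, 0, by omega, by omega⟩
      · exact ⟨0, 1, 0, by omega, by omega⟩
      · exact ⟨0, 0, 1, by omega, by omega⟩
    · obtain ⟨h1, h2⟩ := h
      interval_cases n
      · exact ⟨2, 0, 0, by omega, by omega⟩
      · exact ⟨1, 1, 0, by omega, by omega⟩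
      · exact ⟨1, 0, 1, by omega, by omega⟩
      · exact ⟨0, 1, 1, by omega, by omega⟩
      · exact ⟨0, 0, 2, by omega, by omega⟩
    · obtain ⟨h1, h2⟩ := h
      interval_cases n
      · exact ⟨3, 0, 0, by omega, by omega⟩
      · exact ⟨2, 1, 0, by omega, by omega⟩
      · exact ⟨2, 0, 1, by omega, by omega⟩
      · exact ⟨1, 1, 1, by omega, by omega⟩
      · exact ⟨1, 0, 2, by omega, by omega⟩
      · exact ⟨0, 1, 2, by omega, by omega⟩
      · exact ⟨0, 0, 3, by omega, by omega⟩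
  obtain ⟨a, b, c, habc, rfl⟩ := hrep
  exact Semi.main (8 * a + 9 * b + 10 * c) (by omega)
    (fun m hm => Semi.has_all m hm a b c habc) ε hε

end Pool.Agent.Results.MP_7bfa24_nt.EveryLargeN
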